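import Mathlib

/-!
# Leverage scores by minimising a determinant (helper7, for MP_95f808)
-/

namespace Pool.Agent.helper7.CFL

open Matrix Finset

variable {V E : Type*} [Fintype V] [DecidableEq V] [DecidableEq E]

/-- The weighted Gram matrix with base vector `u`, the edges of `S` and weights `c`. -/
noncomputable def N (u : V → ℝ) (b : E → V → ℝ) (S : Finset E) (c : E → ℝ) : Matrix V V ℝ :=
  vecMulVec u u + ∑ e ∈ S, c e • vecMulVec (b e) (b e)

omit [DecidableEq V] in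
theorem psd_rank1 (v : V → ℝ) : (vecMulVec v v).PosSemidef := by
  have h := posSemidef_vecMulVec_self_star (R := ℝ) v
  simpa using h

omit [DecidableEq V] [DecidableEq E] in
theorem N_psd (u : V → ℝ) (b : E → V → ℝ) (S : Finset E) (c : E → ℝ) (hc : ∀ e, 0 ≤ c e) :
    (N u b S c).PosSemidef := by
  unfold N
  refine (psd_rank1 u).add (posSemidef_sum S fun e _ => (psd_rank1 (b e)).smul (hc e))

omit [DecidableEq V] in
theorem quad_rank1 (v x : V → ℝ) : x ⬝ᵥ (vecMulVec v v *ᵥ x) = (v ⬝ᵥ x) ^ 2 := by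
  rw [vecMulVec_mulVec, dotProduct_smul]
  simp [dotProduct_comm, sq]

omit [DecidableEq V] [DecidableEq E] in
theorem N_quad (u : V → ℝ) (b : E → V → ℝ) (S : Finset E) (c : E → ℝ) (x : V → ℝ) :
    x ⬝ᵥ (N u b S c *ᵥ x) = (u ⬝ᵥ x) ^ 2 + ∑ e ∈ S, c e * (b e ⬝ᵥ x) ^ 2 := by
  unfold N
  rw [add_mulVec, dotProduct_add, quad_rank1, sum_mulVec, dotProduct_sum]
  congr 1
  refine Finset.sum_congr rfl fun e _ => ?_
  rw [smul_mulVec, dotProduct_smul, quad_rank1, smul_eq_mul]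

omit [DecidableEq V] [DecidableEq E] in
/-- positive definiteness from spanning -/
theorem N_posDef (u : V → ℝ) (b : E → V → ℝ) (S : Finset E) (c : E → ℝ) (hc : ∀ e, 0 < c e)
    (h : ∀ x : V → ℝ, u ⬝ᵥ x = 0 → (∀ e ∈ S, b e ⬝ᵥ x = 0) → x = 0) :
    (N u b S c).PosDef := by
  refine PosDef.of_dotProduct_mulVec_pos (N_psd u b S c fun e => (hc e).le).isHermitian ?_
  intro x hx
  simp only [star_trivial]
  rw [N_quad]
  by_contra hcon
  have h1 : 0 ≤ (u ⬝ᵥ x) ^ 2 := sq_nonneg _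
  have h2 : ∀ e ∈ S, 0 ≤ c e * (b e ⬝ᵥ x) ^ 2 := fun e _ =>
    mul_nonneg (hc e).le (sq_nonneg _)
  have h3 := Finset.sum_nonneg h2
  have h4 : (u ⬝ᵥ x) ^ 2 = 0 := by linarith
  have h5 : ∑ e ∈ S, c e * (b e ⬝ᵥ x) ^ 2 = 0 := by linarith
  rw [Finset.sum_eq_zero_iff_of_nonneg h2] at h5
  refine hx (h x (by simpa using h4) fun e he => ?_)
  have h6 := h5 e he
  have h7 : (b e ⬝ᵥ x) ^ 2 = 0 := by
    rcases mul_eq_zero.mp h6 with h | h
    · exact absurd h (hc e).ne'
    · exact h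
  simpa using h7

/-- rank one update of the determinant -/
theorem det_rank1 (A : Matrix V V ℝ) (hA : A.PosDef) (v : V → ℝ) (t : ℝ) :
    (A + t • vecMulVec v v).det = A.det * (1 + t * (v ⬝ᵥ (A⁻¹ *ᵥ v))) := by
  have h := det_add_replicateCol_mul_replicateRow (ι := Unit) (A := A)
    ((isUnit_iff_isUnit_det A).mp hA.isUnit) (t • v) v
  have h1 : replicateCol Unit (t • v) * replicateRow Unit v = t • vecMulVec v v := by
    ext i j
    simp [vecMulVec, Matrix.mul_apply, mul_assoc]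
  rw [h1] at h
  have h2 : (1 + replicateRow Unit v * A⁻¹ * replicateCol Unit (t • v) : Matrix Unit Unit ℝ)
      default default = 1 + t * (v ⬝ᵥ (A⁻¹ *ᵥ v)) := by
    rw [Matrix.mul_assoc, ← replicateCol_mulVec, Matrix.add_apply, Matrix.one_apply_eq,
      replicateRow_mul_replicateCol_apply, mulVec_smul, dotProduct_smul, smul_eq_mul]
  rw [h, det_unique (1 + replicateRow Unit v * A⁻¹ * replicateCol Unit (t • v)), h2]

/-- the leverage score -/
noncomputable def lev (A : Matrix V V ℝ) (v : V → ℝ) : ℝ := v ⬝ᵥ (A⁻¹ *ᵥ v)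

theorem lev_nonneg (A : Matrix V V ℝ) (hA : A.PosDef) (v : V → ℝ) : 0 ≤ lev A v := by
  have h := hA.inv.posSemidef.dotProduct_mulVec_nonneg v
  simpa [lev] using h

theorem lev_le_one (u : V → ℝ) (b : E → V → ℝ) (S : Finset E) (c : E → ℝ) (hc : ∀ e, 0 ≤ c e)
    (hA : (N u b S c).PosDef) (e : E) (he : e ∈ S) : c e * lev (N u b S c) (b e) ≤ 1 := by
  set A := N u b S c with hAdef
  set x := A⁻¹ *ᵥ b e with hx
  set q := lev A (b e) with hq
  have hq0 : 0 ≤ q := lev_nonneg A hA _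
  have h1 : A *ᵥ x = b e := by
    rw [hx, mulVec_mulVec, mul_nonsing_inv _ ((isUnit_iff_isUnit_det A).mp hA.isUnit), one_mulVec]
  have h2 : x ⬝ᵥ (A *ᵥ x) = q := by
    rw [h1, hq, lev, dotProduct_comm]
  have h3 : q ≥ c e * q ^ 2 := by
    have h4 := N_quad u b S c x
    rw [← hAdef, h2] at h4
    have h5 : c e * (b e ⬝ᵥ x) ^ 2 ≤ ∑ e ∈ S, c e * (b e ⬝ᵥ x) ^ 2 :=
      Finset.single_le_sum (f := fun e => c e * (b e ⬝ᵥ x) ^ 2)
        (fun e _ => mul_nonneg (hc e) (sq_nonneg _)) he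
    have h6 : b e ⬝ᵥ x = q := rfl
    rw [h6] at h5
    nlinarith [sq_nonneg (u ⬝ᵥ x)]
  rcases hq0.eq_or_lt with h | h
  · rw [← h]; simp
  · by_contra hcon
    push Not at hcon
    nlinarith

omit [Fintype V] [DecidableEq V] in
theorem N_insert (u : V → ℝ) (b : E → V → ℝ) (S : Finset E) (c : E → ℝ) (e : E) (he : e ∉ S) :
    N u b (insert e S) c = N u b S c + c e • vecMulVec (b e) (b e) := by
  unfold N
  rw [Finset.sum_insert he]
  abel

omit [Fintype V] [DecidableEq V] in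
theorem N_update (u : V → ℝ) (b : E → V → ℝ) (S : Finset E) (c : E → ℝ) (e : E) (he : e ∈ S)
    (t : ℝ) :
    N u b S (Function.update c e t) = N u b S c + (t - c e) • vecMulVec (b e) (b e) := by
  unfold N
  rw [← Finset.add_sum_erase S _ he, ← Finset.add_sum_erase S (fun e => c e • _) he]
  have h : ∑ x ∈ S.erase e, Function.update c e t x • vecMulVec (b x) (b x) =
      ∑ x ∈ S.erase e, c x • vecMulVec (b x) (b x) := by
    refine Finset.sum_congr rfl fun x hx => ?_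
    rw [Function.update_of_ne (Finset.ne_of_mem_erase hx)]
  rw [h, Function.update_self, sub_smul]
  abel

theorem det_mono (u : V → ℝ) (b : E → V → ℝ) (T : Finset E) (c : E → ℝ) (hc : ∀ e, 0 < c e)
    (h : ∀ x : V → ℝ, u ⬝ᵥ x = 0 → (∀ e ∈ T, b e ⬝ᵥ x = 0) → x = 0) (S : Finset E) :
    (N u b T c).det ≤ (N u b (T ∪ S) c).det := by
  induction S using Finset.induction_on with
  | empty => simp
  | insert e S heS ih =>
    rw [Finset.union_insert]
    by_cases he : e ∈ T ∪ S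
    · rw [Finset.insert_eq_of_mem he]; exact ih
    · rw [N_insert _ _ _ _ _ he]
      have hP : (N u b (T ∪ S) c).PosDef := by
        refine N_posDef u b _ c hc fun x hx hx2 => h x hx fun e he => hx2 e ?_
        exact Finset.mem_union_left _ he
      rw [det_rank1 _ hP]
      have h1 := hP.det_pos
      have h2 := lev_nonneg _ hP (b e)
      unfold lev at h2
      have h3 : 0 ≤ c e * (b e ⬝ᵥ ((N u b (T ∪ S) c)⁻¹ *ᵥ b e)) := mul_nonneg (hc e).le h2
      nlinarith

theorem det_scale (u : V → ℝ) (b : E → V → ℝ) (T : Finset E) (c : E → ℝ)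
    (hc : ∀ e, 0 < c e ∧ c e ≤ 1)
    (h : ∀ x : V → ℝ, u ⬝ᵥ x = 0 → (∀ e ∈ T, b e ⬝ᵥ x = 0) → x = 0) (R : Finset E) :
    R ⊆ T → (∏ e ∈ R, c e) * (N u b T (fun _ => 1)).det ≤
      (N u b T (fun e => if e ∈ R then c e else 1)).det := by
  induction R using Finset.induction_on with
  | empty => intro _; simp
  | insert e R heR ih =>
    intro hsub
    have hR : R ⊆ T := fun x hx => hsub (Finset.mem_insert_of_mem hx)
    have heT : e ∈ T := hsub (Finset.mem_insert_self _ _)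
    have ih' := ih hR
    set c0 : E → ℝ := fun e => if e ∈ R then c e else 1 with hc0
    have hc0pos : ∀ e, 0 < c0 e := by
      intro x
      simp only [hc0]
      split_ifs
      · exact (hc x).1
      · exact one_pos
    have hup : (fun x => if x ∈ insert e R then c x else 1) = Function.update c0 e (c e) := by
      funext x
      by_cases hx : x = e
      · subst hx; simp
      · rw [Function.update_of_ne hx]
        simp [hc0, hx]
    rw [hup, N_update _ _ _ _ _ heT]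
    have hP : (N u b T c0).PosDef := N_posDef u b T c0 hc0pos h
    rw [det_rank1 _ hP]
    have h1 := hP.det_pos
    have h2 := lev_le_one u b T c0 (fun e => (hc0pos e).le) hP e heT
    have hc0e : c0 e = 1 := by simp [hc0, heR]
    rw [hc0e, one_mul] at h2
    have h2' := lev_nonneg _ hP (b e)
    unfold lev at h2 h2'
    rw [hc0e, Finset.prod_insert heR, mul_assoc]
    have h3 : c e ≤ 1 + (c e - 1) * (b e ⬝ᵥ ((N u b T c0)⁻¹ *ᵥ b e)) := by
      nlinarith [(hc e).2, (hc e).1]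
    calc c e * ((∏ x ∈ R, c x) * (N u b T fun x => 1).det) ≤ c e * (N u b T c0).det :=
          mul_le_mul_of_nonneg_left ih' (hc e).1.le
      _ ≤ _ := by
          rw [mul_comm]
          exact mul_le_mul_of_nonneg_left h3 h1.le

/-- lower bound for the determinant from a spanning set `T` -/
theorem det_low [Fintype E] (u : V → ℝ) (b : E → V → ℝ) (T : Finset E) (c : E → ℝ)
    (hc : ∀ e, 0 < c e ∧ c e ≤ 1)
    (h : ∀ x : V → ℝ, u ⬝ᵥ x = 0 → (∀ e ∈ T, b e ⬝ᵥ x = 0) → x = 0) :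
    (∏ e ∈ T, c e) * (N u b T (fun _ => 1)).det ≤ (N u b univ c).det := by
  have h1 := det_scale u b T c hc h T (Finset.Subset.refl _)
  have h2 := det_mono u b T c (fun e => (hc e).1) h univ
  have h3 : N u b T (fun e => if e ∈ T then c e else 1) = N u b T c := by
    unfold N
    congr 1
    refine Finset.sum_congr rfl fun e he => ?_
    show (if e ∈ T then c e else 1) • _ = _
    rw [if_pos he]
  have h4 : T ∪ univ = univ := by simp
  rw [h3] at h1
  rw [h4] at h2
  exact h1.trans h2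

theorem num_aux (K : ℕ) (hK : 0 < K) (ε : ℝ) (hε : 0 < ε) :
    ∃ δ η : ℝ, 0 < δ ∧ δ < 1 ∧ 0 < η ∧ ∀ x : ℝ, 1 / (K : ℝ) + ε ≤ x → δ * x ≤ 1 →
      (1 + η) * (1 - δ * x) ^ K < 1 - δ := by
  have hK' : (0 : ℝ) < K := by exact_mod_cast hK
  set a : ℝ := 1 / (K : ℝ) + ε with ha
  have ha0 : 0 < a := by positivity
  set δ : ℝ := K * ε / (2 * (1 + K * ε)) with hδ
  have hδ0 : 0 < δ := by positivity
  have hδ1 : δ < 1 := by
    rw [hδ, div_lt_one (by positivity)]
    nlinarith [mul_pos hK' hε]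
  have hKa : K * a = 1 + K * ε := by
    rw [ha]; field_simp
  have hpow : ∀ x : ℝ, a ≤ x → δ * x ≤ 1 → (1 - δ * x) ^ K * (1 + δ * (1 + K * ε)) ≤ 1 := by
    intro x hax hx1
    have hx0 : 0 ≤ δ * x := mul_nonneg hδ0.le (ha0.le.trans hax)
    have h1 : 1 + K * (δ * x) ≤ (1 + δ * x) ^ K :=
      one_add_mul_le_pow (by linarith) K
    have h2 : 1 + δ * (1 + K * ε) ≤ 1 + K * (δ * x) := by
      rw [← hKa]
      have : δ * (K * a) ≤ K * (δ * x) := by
        have := mul_le_mul_of_nonneg_left hax (mul_nonneg hK'.le hδ0.le)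
        nlinarith
      linarith
    have h3 : 0 ≤ (1 - δ * x) ^ K := pow_nonneg (by linarith) K
    calc (1 - δ * x) ^ K * (1 + δ * (1 + K * ε)) ≤ (1 - δ * x) ^ K * (1 + δ * x) ^ K :=
          mul_le_mul_of_nonneg_left (h2.trans h1) h3
      _ = ((1 - δ * x) * (1 + δ * x)) ^ K := (mul_pow _ _ _).symm
      _ ≤ 1 := by
          apply pow_le_one₀
          · exact mul_nonneg (by linarith) (by linarith)
          · nlinarith
  -- P = 1/(1+δ(1+Kε)) < 1 - δ
  set Q : ℝ := 1 + δ * (1 + K * ε) with hQ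
  have hQ0 : 0 < Q := by positivity
  have hQ1 : 1 < (1 - δ) * Q := by
    have h1 : δ * (1 + K * ε) = K * ε / 2 := by
      rw [hδ]; field_simp
    have h2 : 0 < K * ε := mul_pos hK' hε
    rw [hQ, h1]
    have h3 : δ < 1 / 2 * (K * ε) := by
      rw [hδ, div_lt_iff₀ (by positivity)]
      nlinarith
    have h4 : (1 - δ) * (1 + K * ε / 2) = 1 + K * ε / 2 - δ - δ * (K * ε / 2) := by ring
    have h5 : δ + δ * (K * ε / 2) < K * ε / 2 := by
      have h6 : δ * (1 + K * ε / 2) < K * ε / 2 := by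
        have h7 : δ * (1 + K * ε / 2) < δ * (1 + K * ε) := by
          apply mul_lt_mul_of_pos_left _ hδ0
          linarith
        linarith
      linarith
    linarith
  refine ⟨δ, ((1 - δ) * Q - 1) / 2, hδ0, hδ1, by linarith, fun x hx hx1 => ?_⟩
  have h1 := hpow x hx hx1
  have h3 : 0 ≤ (1 - δ * x) ^ K := pow_nonneg (by linarith) K
  have h4 : (1 + ((1 - δ) * Q - 1) / 2) * (1 - δ * x) ^ K * Q < (1 - δ) * Q := by
    have h5 : (1 + ((1 - δ) * Q - 1) / 2) * (1 - δ * x) ^ K * Q =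
        (1 + ((1 - δ) * Q - 1) / 2) * ((1 - δ * x) ^ K * Q) := by ring
    rw [h5]
    have h6 : (1 + ((1 - δ) * Q - 1) / 2) * ((1 - δ * x) ^ K * Q) ≤
        (1 + ((1 - δ) * Q - 1) / 2) * 1 := by
      apply mul_le_mul_of_nonneg_left h1
      linarith
    linarith
  exact lt_of_mul_lt_mul_right h4 hQ0.le

/-- The abstract theorem: leverage scores at most `1/K + ε`. -/
theorem abs_main [Fintype E] (K : ℕ) (hK : 0 < K) (u : V → ℝ) (b : E → V → ℝ)
    (hspan : ∀ x : V → ℝ, u ⬝ᵥ x = 0 → (∀ e, b e ⬝ᵥ x = 0) → x = 0)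
    (C : ℝ) (hC : 0 < C)
    (hlow : ∀ c : E → ℝ, (∀ e, 0 < c e ∧ c e ≤ 1) → C * ∏ e, c e ≤ (N u b univ c).det ^ K)
    (ε : ℝ) (hε : 0 < ε) :
    ∃ c : E → ℝ, (∀ e, 0 < c e ∧ c e ≤ 1) ∧ (N u b univ c).PosDef ∧
      ∀ e, c e * (b e ⬝ᵥ ((N u b univ c)⁻¹ *ᵥ b e)) ≤ 1 / (K : ℝ) + ε := by
  obtain ⟨δ, η, hδ0, hδ1, hη, hnum⟩ := num_aux K hK ε hε
  set G : (E → ℝ) → ℝ := fun c => (N u b univ c).det ^ K / ∏ e, c e with hG
  set I : Set ℝ := G '' {c | ∀ e, 0 < c e ∧ c e ≤ 1} with hI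
  have hprod : ∀ c : E → ℝ, (∀ e, 0 < c e ∧ c e ≤ 1) → 0 < ∏ e, c e := fun c hc =>
    Finset.prod_pos fun e _ => (hc e).1
  have hIlow : ∀ y ∈ I, C ≤ y := by
    rintro y ⟨c, hc, rfl⟩
    rw [hG, le_div_iff₀ (hprod c hc)]
    exact hlow c hc
  have hIne : I.Nonempty := ⟨G fun _ => 1, (fun _ => 1), fun _ => ⟨one_pos, le_refl _⟩, rfl⟩
  have hIpos : 0 < sInf I := lt_of_lt_of_le hC (le_csInf hIne hIlow)
  have hIlt : sInf I < (1 + η) * sInf I := by nlinarith
  obtain ⟨y, ⟨c, hc, rfl⟩, hy⟩ := exists_lt_of_csInf_lt hIne hIlt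
  have hP : ∀ c : E → ℝ, (∀ e, 0 < c e ∧ c e ≤ 1) → (N u b univ c).PosDef := fun c hc =>
    N_posDef u b univ c (fun e => (hc e).1) fun x hx hx2 => hspan x hx fun e =>
      hx2 e (Finset.mem_univ e)
  refine ⟨c, hc, hP c hc, fun e => ?_⟩
  by_contra hcon
  push Not at hcon
  have hPc := hP c hc
  have hlev1 := lev_le_one u b univ c (fun e => (hc e).1.le) hPc e (Finset.mem_univ e)
  unfold lev at hlev1
  set L : ℝ := c e * (b e ⬝ᵥ ((N u b univ c)⁻¹ *ᵥ b e)) with hL
  have hδL : δ * L ≤ 1 := by nlinarith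
  have hkey := hnum L hcon.le hδL
  -- the competitor
  set c' : E → ℝ := Function.update c e ((1 - δ) * c e) with hc'
  have hc'ok : ∀ x, 0 < c' x ∧ c' x ≤ 1 := by
    intro x
    by_cases hx : x = e
    · subst hx
      rw [hc', Function.update_self]
      have h1 := (hc x).1
      have h2 := (hc x).2
      exact ⟨mul_pos (by linarith) h1, by nlinarith⟩
    · rw [hc', Function.update_of_ne hx]; exact hc x
  have hdet : (N u b univ c').det = (N u b univ c).det * (1 - δ * L) := by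
    rw [hc', N_update _ _ _ _ _ (Finset.mem_univ e), det_rank1 _ hPc, hL]
    ring
  have hprod' : ∏ x, c' x = (1 - δ) * ∏ x, c x := by
    rw [← Finset.mul_prod_erase univ c' (Finset.mem_univ e),
      ← Finset.mul_prod_erase univ c (Finset.mem_univ e), hc', Function.update_self, mul_assoc]
    congr 2
    refine Finset.prod_congr rfl fun x hx => ?_
    rw [Function.update_of_ne (Finset.ne_of_mem_erase hx)]
  have hGc' : G c' = G c * ((1 - δ * L) ^ K / (1 - δ)) := by
    have h1 : (1 - δ : ℝ) ≠ 0 := by linarith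
    have h2 : ∏ x, c x ≠ 0 := (hprod c hc).ne'
    simp only [hG]
    rw [hdet, hprod', mul_pow]
    field_simp
  have hge : sInf I ≤ G c' :=
    csInf_le ⟨C, fun y hy => hIlow y hy⟩ ⟨c', hc'ok, rfl⟩
  have hfac0 : 0 ≤ (1 - δ * L) ^ K / (1 - δ) :=
    div_nonneg (pow_nonneg (by linarith) K) (by linarith)
  have hfac1 : (1 + η) * ((1 - δ * L) ^ K / (1 - δ)) < 1 := by
    rw [← mul_div_assoc, div_lt_one (by linarith)]
    exact hkey
  have hlt : G c' < sInf I := by
    rw [hGc']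
    calc G c * ((1 - δ * L) ^ K / (1 - δ)) ≤ (1 + η) * sInf I * ((1 - δ * L) ^ K / (1 - δ)) :=
          mul_le_mul_of_nonneg_right hy.le hfac0
      _ = sInf I * ((1 + η) * ((1 - δ * L) ^ K / (1 - δ))) := by ring
      _ < sInf I * 1 := mul_lt_mul_of_pos_left hfac1 hIpos
      _ = sInf I := mul_one _
  exact absurd hge (not_le.mpr hlt)

end Pool.Agent.helper7.CFL
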