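import Pool.Agent.helper11.CFL.Spec
import Pool.Agent.helper7.CFL.LogDet

namespace Pool.Agent.helper7.CFL

open Matrix Finset Pool.Agent.helper11.CFL

theorem mat_eq {V E : Type} [Fintype V] [DecidableEq V] [Fintype E] [DecidableEq E]
    (src tgt : E → V) (c : E → ℝ) :
    Mat src tgt c = N (fun _ => (1 : ℝ)) (inc src tgt) univ c := by
  ext i j
  unfold Mat N
  rw [Matrix.add_apply, Matrix.sum_apply, add_comm]
  simp [vecMulVec_apply, mul_assoc]

theorem num_mn (w ε W : ℝ) (hw : 0 ≤ w) (hwW : w ≤ W) (hW : 0 < W) (hε : 0 < ε) (δ : ℝ)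
    (hδ0 : 0 < δ) (hδ1 : δ ≤ 1 / 2) (hδ2 : δ ≤ ε / (4 * W)) (x : ℝ) (hx : w + ε ≤ x)
    (hx1 : δ * x ≤ 1) :
    (1 + δ * ε / 4) * (1 - δ * x) < (1 - δ) ^ w := by
  have h1 : 1 - δ * (w + ε / 2) ≤ (1 - δ) ^ w := by
    rw [Real.rpow_def_of_pos (by linarith)]
    have h2 : Real.log (1 - δ) * w + 1 ≤ Real.exp (Real.log (1 - δ) * w) := Real.add_one_le_exp _
    have h3 : 1 - (1 - δ)⁻¹ ≤ Real.log (1 - δ) :=
      Real.one_sub_inv_le_log_of_pos (by linarith)
    have h4 : -(2 * δ) * δ - δ ≤ 1 - (1 - δ)⁻¹ := by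
      have h5 : (1 - δ)⁻¹ ≤ 1 + δ + 2 * δ ^ 2 := by
        rw [inv_le_comm₀ (by linarith) (by positivity)]
        rw [inv_eq_one_div, div_le_iff₀ (by positivity)]
        nlinarith [mul_pos hδ0 hδ0, mul_nonneg (mul_nonneg hδ0.le hδ0.le) (by linarith : (0:ℝ) ≤ 1 - 2 * δ)]
      nlinarith
    have h6 : (-(2 * δ) * δ - δ) * w ≤ Real.log (1 - δ) * w :=
      mul_le_mul_of_nonneg_right (h4.trans h3) hw
    have h7 : δ * w ≤ ε / 4 := by
      rw [le_div_iff₀ (by positivity)] at hδ2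
      nlinarith
    nlinarith
  have h8 : δ * (w + ε) ≤ δ * x := mul_le_mul_of_nonneg_left hx hδ0.le
  have h9 : 0 < δ * ε := mul_pos hδ0 hε
  have hwe : 0 ≤ δ * x := by
    have : 0 ≤ δ * (w + ε) := by positivity
    linarith
  nlinarith

theorem MN : MN_stmt := by
  intro V E _ _ _ _ _ src tgt w hw hPD hlow ε hε
  set W : ℝ := ∑ e, w e + 1 with hW
  have hW0 : 0 < W := by
    have := Finset.sum_nonneg (s := univ) (f := w) fun e _ => hw e
    linarith
  have hwW : ∀ e, w e ≤ W := by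
    intro e
    have := Finset.single_le_sum (s := univ) (f := w) (fun e _ => hw e) (Finset.mem_univ e)
    linarith
  set δ : ℝ := min (1 / 2) (ε / (4 * W)) with hδ
  have hδ0 : 0 < δ := lt_min (by norm_num) (by positivity)
  have hδ1 : δ ≤ 1 / 2 := min_le_left _ _
  have hδ2 : δ ≤ ε / (4 * W) := min_le_right _ _
  set η : ℝ := δ * ε / 4 with hη
  have hη0 : 0 < η := by positivity
  set G : (E → ℝ) → ℝ := fun c => (Mat src tgt c).det / ∏ e, (c e) ^ (w e) with hG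
  set I : Set ℝ := G '' {c | (∀ e, 0 < c e) ∧ ∀ e, c e ≤ 1} with hI
  have hprod : ∀ c : E → ℝ, (∀ e, 0 < c e) → 0 < ∏ e, (c e) ^ (w e) := fun c hc =>
    Finset.prod_pos fun e _ => Real.rpow_pos_of_pos (hc e) _
  have hIlow : ∀ y ∈ I, 1 ≤ y := by
    rintro y ⟨c, ⟨hc, hc1⟩, rfl⟩
    rw [hG, le_div_iff₀ (hprod c hc), one_mul]
    exact hlow c hc hc1
  have hIne : I.Nonempty := ⟨G fun _ => 1, (fun _ => 1), ⟨fun _ => one_pos, fun _ => le_refl _⟩, rfl⟩
  have hIpos : 0 < sInf I := lt_of_lt_of_le one_pos (le_csInf hIne hIlow)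
  have hIlt : sInf I < (1 + η) * sInf I := by nlinarith
  obtain ⟨y, ⟨c, ⟨hc, hc1⟩, rfl⟩, hy⟩ := exists_lt_of_csInf_lt hIne hIlt
  refine ⟨c, hc, fun e => ?_⟩
  by_contra hcon
  push Not at hcon
  have hPc := hPD c hc
  have hPc' : (N (fun _ => (1 : ℝ)) (inc src tgt) univ c).PosDef := by
    rw [← mat_eq]; exact hPc
  have hlev1 := lev_le_one (fun _ => (1 : ℝ)) (inc src tgt) univ c (fun e => (hc e).le) hPc' e
    (Finset.mem_univ e)
  set L : ℝ := Pool.Agent.helper11.CFL.lev src tgt c e with hL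
  have hLdef : L = c e * (inc src tgt e ⬝ᵥ ((Mat src tgt c)⁻¹ *ᵥ inc src tgt e)) := rfl
  have hlev1' : L ≤ 1 := by
    rw [hLdef, mat_eq]
    exact hlev1
  have hδL : δ * L ≤ 1 := by
    have h0 : 0 ≤ L := by
      have := hw e
      linarith
    nlinarith
  have hkey := num_mn (w e) ε W (hw e) (hwW e) hW0 hε δ hδ0 hδ1 hδ2 L hcon.le hδL
  rw [← hη] at hkey
  set c' : E → ℝ := Function.update c e ((1 - δ) * c e) with hc'
  have hc'ok : (∀ x, 0 < c' x) ∧ ∀ x, c' x ≤ 1 := by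
    have h : ∀ x, 0 < c' x ∧ c' x ≤ 1 := by
      intro x
      by_cases hx : x = e
      · subst hx
        rw [hc', Function.update_self]
        have h1 := hc x
        have h2 := hc1 x
        exact ⟨mul_pos (by linarith) h1, by nlinarith⟩
      · rw [hc', Function.update_of_ne hx]; exact ⟨hc x, hc1 x⟩
    exact ⟨fun x => (h x).1, fun x => (h x).2⟩
  have hdet : (Mat src tgt c').det = (Mat src tgt c).det * (1 - δ * L) := by
    rw [mat_eq, hc', N_update _ _ _ _ _ (Finset.mem_univ e), det_rank1 _ hPc', hLdef,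
      mat_eq]
    ring
  have hprod' : ∏ x, (c' x) ^ (w x) = (1 - δ) ^ (w e) * ∏ x, (c x) ^ (w x) := by
    rw [← Finset.mul_prod_erase univ (fun x => (c' x) ^ (w x)) (Finset.mem_univ e),
      ← Finset.mul_prod_erase univ (fun x => (c x) ^ (w x)) (Finset.mem_univ e)]
    have h1 : c' e = (1 - δ) * c e := by rw [hc', Function.update_self]
    rw [h1, Real.mul_rpow (by linarith) (hc e).le, mul_assoc]
    congr 2
    refine Finset.prod_congr rfl fun x hx => ?_
    rw [hc', Function.update_of_ne (Finset.ne_of_mem_erase hx)]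
  have hpw : 0 < (1 - δ) ^ (w e) := Real.rpow_pos_of_pos (by linarith) _
  have hGc' : G c' = G c * ((1 - δ * L) / (1 - δ) ^ (w e)) := by
    have h1 : (1 - δ) ^ (w e) ≠ 0 := hpw.ne'
    have h2 : ∏ x, (c x) ^ (w x) ≠ 0 := (hprod c hc).ne'
    simp only [hG]
    rw [hdet, hprod']
    field_simp
  have hge : sInf I ≤ G c' :=
    csInf_le ⟨1, fun y hy => hIlow y hy⟩ ⟨c', hc'ok, rfl⟩
  have hfac0 : 0 ≤ (1 - δ * L) / (1 - δ) ^ (w e) := div_nonneg (by linarith) hpw.le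
  have hfac1 : (1 + η) * ((1 - δ * L) / (1 - δ) ^ (w e)) < 1 := by
    rw [← mul_div_assoc, div_lt_one hpw]
    exact hkey
  have hlt : G c' < sInf I := by
    rw [hGc']
    calc G c * ((1 - δ * L) / (1 - δ) ^ (w e))
          ≤ (1 + η) * sInf I * ((1 - δ * L) / (1 - δ) ^ (w e)) :=
          mul_le_mul_of_nonneg_right hy.le hfac0
      _ = sInf I * ((1 + η) * ((1 - δ * L) / (1 - δ) ^ (w e))) := by ring
      _ < sInf I * 1 := mul_lt_mul_of_pos_left hfac1 hIpos
      _ = sInf I := mul_one _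
  exact absurd hge (not_le.mpr hlt)

end Pool.Agent.helper7.CFL

namespace Pool.Agent.helper11.CFL

theorem MN : MN_stmt := Pool.Agent.helper7.CFL.MN

end Pool.Agent.helper11.CFL
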